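import Pool.Agent.Helper69.QT.St
import Pool.Agent.Helper42.QD.M_LLS
import Pool.Agent.Helper26.QD.M_LQC
import Pool.Agent.Helper64.QD.M_LFR
import Pool.Agent.Helper99.QD.M_LMX

/-!
# Project QD (MP_d112a4_gt), T1: module ENL, the entropy of a quasifuchsian group is at least one
-/

set_option autoImplicit false

open MeasureTheory Matrix Set Topology Filter
open scoped ENNReal ComplexConjugate ComplexOrder

namespace Pool.Agent.Helper83.QT

open Pool.Agent.Helper86.QA Pool.Agent.Helper20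
open Pool.Agent.Helper35.PM (hs IsDiscrete ConvexCocompact limitSet density IsQF ent)
open Pool.Agent.Helper20.QD (sph act orb fr CC)

/-- the polar form of the determinant -/
private noncomputable def ac (P Q : Mat) : ℂ := (P + Q).det - P.det - Q.det

private theorem ac_conj (A B P Q : Mat) (hA : A.det = 1) (hB : B.det = 1) :
    ac (A * P * B) (A * Q * B) = ac P Q := by
  have h : A * P * B + A * Q * B = A * (P + Q) * B := by
    rw [Matrix.mul_add, Matrix.add_mul]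
  unfold ac
  rw [h]
  simp only [Matrix.det_mul, hA, hB, one_mul, mul_one]

private theorem ac_smul (c d : ℂ) (P Q : Mat) : ac (c • P) (d • Q) = c * d * ac P Q := by
  unfold ac
  simp only [Matrix.det_fin_two, Matrix.add_apply, Matrix.smul_apply, smul_eq_mul]
  ring

private theorem det_smul2 (c : ℂ) (P : Mat) : (c • P).det = c ^ 2 * P.det := by
  simp only [Matrix.det_fin_two, Matrix.smul_apply, smul_eq_mul]
  ring

/-- real coordinates of a Hermitian matrix -/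
private theorem herm {P : Mat} (h : P.IsHermitian) :
    (P 0 0).im = 0 ∧ (P 1 1).im = 0 ∧ P 1 0 = conj (P 0 1) := by
  refine ⟨?_, ?_, ?_⟩
  · have h1 := h.apply 0 0
    have h2 := congrArg Complex.im h1
    simp only [RCLike.star_def, Complex.conj_im] at h2
    linarith
  · have h1 := h.apply 1 1
    have h2 := congrArg Complex.im h1
    simp only [RCLike.star_def, Complex.conj_im] at h2
    linarith
  · have h1 := h.apply 1 0
    simpa using h1.symm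

private theorem det_re {P : Mat} (h : P.IsHermitian) :
    P.det.re = (P 0 0).re * (P 1 1).re - ((P 0 1).re ^ 2 + (P 0 1).im ^ 2) := by
  obtain ⟨h0, h1, h2⟩ := herm h
  rw [Matrix.det_fin_two, h2]
  simp only [Complex.sub_re, Complex.mul_re, Complex.conj_re, Complex.conj_im, h0, h1]
  ring

private theorem trace_re {P : Mat} (ht : P.trace = 1) : (P 0 0).re + (P 1 1).re = 1 := by
  have h := congrArg Complex.re ht
  rw [Matrix.trace_fin_two] at h
  simpa using h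

/-- lower bound of the polar form -/
private theorem ac_ge {P Q : Mat} (hP : P.IsHermitian) (hPt : P.trace = 1) (hQ : Q.IsHermitian)
    (hQt : Q.trace = 1) (hQd : Q.det = 0) : P.det.re ≤ (ac P Q).re := by
  have e : ac P Q = P.det + Q.det - (P - Q).det := by
    unfold ac
    simp only [Matrix.det_fin_two, Matrix.add_apply, Matrix.sub_apply]
    ring
  have hH : (P - Q).IsHermitian := hP.sub hQ
  have h1 := det_re hH
  have h2 := trace_re hPt
  have h3 := trace_re hQt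
  rw [e, hQd, add_zero, Complex.sub_re, h1]
  simp only [Matrix.sub_apply, Complex.sub_re]
  have h4 : (P 1 1).re - (Q 1 1).re = -((P 0 0).re - (Q 0 0).re) := by linarith
  rw [h4]
  nlinarith [sq_nonneg ((P 0 0).re - (Q 0 0).re), sq_nonneg ((P 0 1 - Q 0 1).re), sq_nonneg ((P 0 1 - Q 0 1).im)]

private theorem tr_sq {X : Mat} (hX : X.IsHermitian) : 4 * X.det.re ≤ X.trace.re ^ 2 := by
  rw [det_re hX, Matrix.trace_fin_two, Complex.add_re]
  nlinarith [sq_nonneg ((X 0 0).re - (X 1 1).re), sq_nonneg ((X 0 1).re), sq_nonneg ((X 0 1).im)]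

private theorem conj_det (A : SL) : ((A : Mat)ᴴ).det = 1 := by
  rw [Matrix.det_conjTranspose, A.det_coe, star_one]

private theorem conj_herm (A : SL) {P : Mat} (hP : P.IsHermitian) :
    ((A : Mat) * P * (A : Mat)ᴴ).IsHermitian :=
  Matrix.isHermitian_mul_mul_conjTranspose (A : Mat) hP

private theorem trace_eq (A : SL) {P : Mat} (hP : P.IsHermitian) :
    ((A : Mat) * P * (A : Mat)ᴴ).trace = ((Nn A P : ℝ) : ℂ) := by
  obtain ⟨h0, h1, -⟩ := herm (conj_herm A hP)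
  apply Complex.ext
  · rfl
  · rw [Complex.ofReal_im, Matrix.trace_fin_two, Complex.add_im, h0, h1, add_zero]

private theorem det_act (A : SL) {P : Mat} (hP : P.IsHermitian) :
    (act A P).det = (((Nn A P : ℝ) : ℂ)⁻¹) ^ 2 * P.det := by
  change (((A : Mat) * P * (A : Mat)ᴴ).trace⁻¹ • ((A : Mat) * P * (A : Mat)ᴴ)).det = _
  rw [trace_eq A hP, det_smul2, Matrix.det_mul, Matrix.det_mul, A.det_coe, conj_det, one_mul, mul_one]

private theorem ac_act (A : SL) {P Q : Mat} (hP : P.IsHermitian) (hQ : Q.IsHermitian) :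
    ac (act A P) (act A Q) = ((Nn A P : ℝ) : ℂ)⁻¹ * ((Nn A Q : ℝ) : ℂ)⁻¹ * ac P Q := by
  change ac (((A : Mat) * P * (A : Mat)ᴴ).trace⁻¹ • ((A : Mat) * P * (A : Mat)ᴴ))
    (((A : Mat) * Q * (A : Mat)ᴴ).trace⁻¹ • ((A : Mat) * Q * (A : Mat)ᴴ)) = _
  rw [trace_eq A hP, trace_eq A hQ, ac_smul, ac_conj _ _ _ _ A.det_coe (conj_det A)]

private theorem ac_comb (t : ℝ) (P Q : Mat) (hQ : Q.det = 0) :
    (ac (t • P + (1 - t) • Q) Q).re = t * (ac P Q).re ∧
      (t • P + (1 - t) • Q).det.re = t ^ 2 * P.det.re + t * (1 - t) * (ac P Q).re := by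
  have hQ' : Q 0 0 * Q 1 1 - Q 0 1 * Q 1 0 = 0 := by rw [← Matrix.det_fin_two, hQ]
  have e1 : ac (t • P + (1 - t) • Q) Q = (t : ℂ) * ac P Q := by
    unfold ac
    simp only [Matrix.det_fin_two, Matrix.add_apply, Matrix.smul_apply, Complex.real_smul, Complex.ofReal_sub,
      Complex.ofReal_one]
    linear_combination (2 - 2 * (t : ℂ)) * hQ'
  have e2 : (t • P + (1 - t) • Q).det = ((t ^ 2 : ℝ) : ℂ) * P.det + ((t * (1 - t) : ℝ) : ℂ) * ac P Q := by
    unfold ac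
    simp only [Matrix.det_fin_two, Matrix.add_apply, Matrix.smul_apply, Complex.real_smul, Complex.ofReal_sub,
      Complex.ofReal_one, Complex.ofReal_mul, Complex.ofReal_pow]
    linear_combination (1 - (t : ℂ)) ^ 2 * hQ'
  refine ⟨?_, ?_⟩
  · rw [e1, Complex.re_ofReal_mul]
  · rw [e2, Complex.add_re, Complex.re_ofReal_mul, Complex.re_ofReal_mul]

private theorem ac_cont (Q : Mat) : Continuous (fun P : Mat => (ac P Q).re) := by
  unfold ac
  have h1 : Continuous (fun P : Mat => (P + Q).det) := (continuous_id.add continuous_const).matrix_det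
  have h2 : Continuous (fun P : Mat => P.det) := continuous_id.matrix_det
  exact Complex.continuous_re.comp ((h1.sub h2).sub continuous_const)


private theorem Nn_inv (A : SL) {P : Mat} (hP : P.IsHermitian) (ht : P.trace = 1) :
    Nn A⁻¹ (act A P) = (Nn A P)⁻¹ := by
  have h1 : ((A⁻¹ : SL) : Mat) * (A : Mat) = 1 := by
    rw [← Matrix.SpecialLinearGroup.coe_mul, inv_mul_cancel, Matrix.SpecialLinearGroup.coe_one]
  have h2 : (A : Mat)ᴴ * ((A⁻¹ : SL) : Mat)ᴴ = 1 := by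
    rw [← Matrix.conjTranspose_mul, h1, Matrix.conjTranspose_one]
  have h3 : ((A⁻¹ : SL) : Mat) * act A P * ((A⁻¹ : SL) : Mat)ᴴ = (((Nn A P : ℝ) : ℂ))⁻¹ • P := by
    change ((A⁻¹ : SL) : Mat) * (((A : Mat) * P * (A : Mat)ᴴ).trace⁻¹ • ((A : Mat) * P * (A : Mat)ᴴ)) *
      ((A⁻¹ : SL) : Mat)ᴴ = _
    rw [trace_eq A hP, Matrix.mul_smul, Matrix.smul_mul]
    congr 1
    calc ((A⁻¹ : SL) : Mat) * ((A : Mat) * P * (A : Mat)ᴴ) * ((A⁻¹ : SL) : Mat)ᴴ
        = (((A⁻¹ : SL) : Mat) * (A : Mat)) * P * ((A : Mat)ᴴ * ((A⁻¹ : SL) : Mat)ᴴ) := by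
          simp only [Matrix.mul_assoc]
      _ = P := by rw [h1, h2, Matrix.one_mul, Matrix.mul_one]
  have h4 : Nn A⁻¹ (act A P) = ((((Nn A P : ℝ) : ℂ))⁻¹ • P).trace.re := by rw [← h3]; rfl
  rw [h4, Matrix.trace_smul, ht, smul_eq_mul, mul_one, ← Complex.ofReal_inv, Complex.ofReal_re]

/-- a quadratic inequality -/
private theorem quad (u v z X Y w : ℝ) (hu : 0 ≤ u) (hv : 0 ≤ v) (hz : z ^ 2 ≤ u * v) (_hz0 : 0 ≤ z)
    (_hX : 0 ≤ X) (_hY : 0 ≤ Y) (hw : |w| ≤ z * X * Y) : 0 ≤ u * X ^ 2 + v * Y ^ 2 + 2 * w := by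
  have h1 : (2 * (z * X * Y)) ^ 2 ≤ (u * X ^ 2 + v * Y ^ 2) ^ 2 := by
    have h2 : z ^ 2 * (X * Y) ^ 2 ≤ u * v * (X * Y) ^ 2 := mul_le_mul_of_nonneg_right hz (sq_nonneg _)
    nlinarith [sq_nonneg (u * X ^ 2 - v * Y ^ 2)]
  have h3 : 2 * (z * X * Y) ≤ u * X ^ 2 + v * Y ^ 2 := by
    apply le_of_sq_le_sq h1
    positivity
  have h4 := (abs_le.1 hw).1
  linarith

private theorem Nn_expand (B P : Mat) (hP : P.IsHermitian) : (B * P * Bᴴ).trace.re =
    ∑ i : Fin 2, ((P 0 0).re * ‖B i 0‖ ^ 2 + (P 1 1).re * ‖B i 1‖ ^ 2 +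
      2 * (B i 0 * P 0 1 * conj (B i 1)).re) := by
  obtain ⟨h0, h1, h2⟩ := herm hP
  simp only [Matrix.trace_fin_two, Matrix.mul_apply, Fin.sum_univ_two, Matrix.conjTranspose_apply,
    RCLike.star_def, Complex.add_re, Complex.mul_re, Complex.mul_im, Complex.add_im, Complex.conj_re,
    Complex.conj_im, h2, h0, h1, ← Complex.normSq_eq_norm_sq, Complex.normSq_apply]
  ring

private theorem hs_expand (B : Mat) : hs B = ∑ i : Fin 2, (‖B i 0‖ ^ 2 + ‖B i 1‖ ^ 2) := by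
  unfold hs
  simp only [Fin.sum_univ_two]

private theorem cross_le (x y z : ℂ) : |(x * z * conj y).re| ≤ ‖z‖ * ‖x‖ * ‖y‖ := by
  refine (Complex.abs_re_le_norm _).trans (le_of_eq ?_)
  rw [norm_mul, norm_mul, RCLike.norm_conj]
  ring

private theorem nsq (z : ℂ) : ‖z‖ ^ 2 = z.re ^ 2 + z.im ^ 2 := by
  rw [← Complex.normSq_eq_norm_sq, Complex.normSq_apply]
  ring

/-- lower bound by the determinant -/
private theorem Nn_ge (B P : Mat) (hP : P.IsHermitian) (ht : P.trace = 1) (_hd : 0 ≤ P.det.re)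
    (h00 : 0 ≤ (P 0 0).re) (h11 : 0 ≤ (P 1 1).re) : P.det.re * hs B ≤ (B * P * Bᴴ).trace.re := by
  have h1 := det_re hP
  have h2 := trace_re ht
  rw [Nn_expand B P hP, hs_expand, Finset.mul_sum]
  refine Finset.sum_le_sum fun i _ => ?_
  have h3 := nsq (P 0 1)
  set p := (P 0 0).re with hp
  set q := (P 1 1).re with hq
  set d := P.det.re with hd'
  have hz2 : ‖P 0 1‖ ^ 2 = p * q - d := by rw [h3, h1]; ring
  have hq' : q = 1 - p := by linarith
  have hu : 0 ≤ p - d := by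
    have : p - d = p * p + ‖P 0 1‖ ^ 2 := by rw [hz2, hq']; ring
    rw [this]; positivity
  have hv : 0 ≤ q - d := by
    have : q - d = q * q + ‖P 0 1‖ ^ 2 := by
      rw [hz2]
      have : p = 1 - q := by linarith
      rw [this]; ring
    rw [this]; positivity
  have huv : ‖P 0 1‖ ^ 2 ≤ (p - d) * (q - d) := by
    have : (p - d) * (q - d) = ‖P 0 1‖ ^ 2 + d ^ 2 := by
      rw [hz2, hq']; ring
    rw [this]
    nlinarith [sq_nonneg d]
  have h5 := quad (p - d) (q - d) ‖P 0 1‖ ‖B i 0‖ ‖B i 1‖ _ hu hv huv (norm_nonneg _) (norm_nonneg _)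
    (norm_nonneg _) (cross_le (B i 0) (B i 1) (P 0 1))
  nlinarith [h5]

/-- upper bound -/
private theorem Nn_le (B Q : Mat) (hQ : Q.IsHermitian) (ht : Q.trace = 1) (hd : 0 ≤ Q.det.re)
    (h00 : 0 ≤ (Q 0 0).re) (h11 : 0 ≤ (Q 1 1).re) : (B * Q * Bᴴ).trace.re ≤ hs B := by
  have h1 := det_re hQ
  have h2 := trace_re ht
  rw [Nn_expand B Q hQ, hs_expand]
  refine Finset.sum_le_sum fun i _ => ?_
  have h3 := nsq (Q 0 1)
  set p := (Q 0 0).re with hp
  set q := (Q 1 1).re with hq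
  have hz : ‖Q 0 1‖ ^ 2 ≤ q * p := by
    rw [h3]
    nlinarith
  have hc := cross_le (B i 0) (B i 1) (Q 0 1)
  rw [← abs_neg] at hc
  have h5 := quad q p ‖Q 0 1‖ ‖B i 0‖ ‖B i 1‖ _ h11 h00 hz (norm_nonneg _) (norm_nonneg _) (norm_nonneg _) hc
  have hq' : q = 1 - p := by linarith
  rw [hq'] at h5 ⊢
  nlinarith [h5]

set_option maxHeartbeats 1600000 in
/-- strong conical limit points -/
theorem strong (hLFR : QD.StLFR) (hLQC : QD.StLQC) (hLMX : QD.StLMX) (hLLS : QD.StLLS)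
    (Γ : Type) [Group Γ] (ρ : Γ →* SL) (hcc : CC ρ) : ∃ K1 : ℝ, 0 < K1 ∧ ∀ Q ∈ limitSet ρ, ∀ X : ℝ, 0 < X →
      ∃ γ : Γ, X < hs (ρ γ : Mat) ∧ Nn (ρ γ) Q * hs (ρ γ : Mat) ≤ K1 := by
  obtain ⟨f1, f2, -, f4⟩ := hLFR
  obtain ⟨-, -, -, -, -, -, -, -, q9, q10, -⟩ := hLQC
  obtain ⟨-, -, m3, -, m5, m6⟩ := hLMX
  obtain ⟨-, hsub, -, -, hl5⟩ := hLLS Γ ρ hcc.discrete
  obtain ⟨C, K, ⟨P0, hP0⟩, hconv, hCpos, hCinv, hKc, hKpos, hCK⟩ := hcc.cocompact
  -- the constant of K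
  obtain ⟨γ₀, hγ₀⟩ := hCK P0 hP0
  obtain ⟨K0, hK0, hmin⟩ := hKc.exists_isMinOn ⟨_, hγ₀⟩
    ((Complex.continuous_re.comp (continuous_id.matrix_det (n := Fin 2) (R := ℂ))).continuousOn)
  have hdpos : ∀ P : Mat, P.PosDef → 0 < P.det.re := fun P hP => (Complex.pos_iff.1 hP.det_pos).1
  set d₀ : ℝ := K0.det.re with hd₀
  have hd₀p : 0 < d₀ := hdpos K0 (hKpos K0 hK0).1
  have hK : ∀ P ∈ K, d₀ ≤ P.det.re := fun P hP => hmin hP
  -- the base point
  obtain ⟨hP0p, hP0t⟩ := hCpos P0 hP0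
  set d : ℝ := P0.det.re with hd
  have hdp : 0 < d := hdpos P0 hP0p
  refine ⟨3 / d₀, by positivity, fun Q hQ X hX => ?_⟩
  have hQs := hsub hQ
  have hQh : Q.IsHermitian := hQs.1.isHermitian
  obtain ⟨ε, hε, hεX⟩ : ∃ ε : ℝ, 0 < ε ∧ ε * X < 1 := ⟨1 / (2 * X), by positivity, by
    rw [div_mul_eq_mul_div, one_mul, div_lt_one (by positivity)]
    linarith⟩
  set a : ℝ := (ac P0 Q).re with ha
  have hap : 0 < a := lt_of_lt_of_le hdp (ac_ge hP0p.isHermitian hP0t hQh hQs.2.1 hQs.2.2)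
  -- a sequence
  choose γ hγ1 hγ2 using fun n : ℕ => hl5 Q hQ (1 / ((n : ℝ) + 1)) (by positivity) (n : ℝ)
  set ν : ℝ := Real.sqrt (4 * d) with hν
  have hνp : 0 < ν := Real.sqrt_pos.2 (by linarith)
  have hlim : Tendsto (fun n => act (ρ (γ n)) P0) atTop (𝓝 Q) := by
    rw [(f4 Q).tendsto_right_iff]
    intro δ hδ
    have h1 : ∀ᶠ n : ℕ in atTop, 1 / ((n : ℝ) + 1) < δ / 4 :=
      (tendsto_one_div_add_atTop_nhds_zero_nat (𝕜 := ℝ)).eventually_lt_const (by linarith)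
    have h2 : ∀ᶠ n : ℕ in atTop, 2 / ν / (n : ℝ) < δ / 4 :=
      (tendsto_const_div_atTop_nhds_zero_nat (2 / ν)).eventually_lt_const (by linarith)
    filter_upwards [h1, h2, eventually_ge_atTop 1] with n hn1 hn2 hn3
    have hn0 : (0 : ℝ) < (n : ℝ) := by exact_mod_cast hn3
    obtain ⟨hN, hfr⟩ := m6 (ρ (γ n)) P0 hP0p hP0t
    have hNν : ν ≤ (((ρ (γ n) : SL) : Mat) * P0 * ((ρ (γ n) : SL) : Mat)ᴴ).trace.re := by
      have h3 := tr_sq (conj_herm (ρ (γ n)) hP0p.isHermitian)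
      rw [Matrix.det_mul, Matrix.det_mul, (ρ (γ n)).det_coe, conj_det, one_mul, mul_one] at h3
      exact Real.sqrt_le_iff.2 ⟨hN.le, h3⟩
    have hfr' : fr (orb ρ (γ n)) (act (ρ (γ n)) P0) < δ / 4 := by
      refine lt_of_le_of_lt hfr (lt_of_le_of_lt ?_ hn2)
      rw [div_div, mul_comm ν]
      exact div_le_div_of_nonneg_left (by norm_num) (by positivity)
        (mul_le_mul (hγ2 n).le hNν hνp.le (hn0.trans (hγ2 n)).le)
    have hfr2 : fr (orb ρ (γ n)) Q < δ / 4 := (hγ1 n).trans hn1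
    have h4 := f2 (act (ρ (γ n)) P0) (orb ρ (γ n)) Q
    rw [(f1 (act (ρ (γ n)) P0) (orb ρ (γ n))).2.1] at h4
    have h5 : Real.sqrt (fr (orb ρ (γ n)) (act (ρ (γ n)) P0)) < Real.sqrt δ / 2 := by
      have h6 : Real.sqrt (δ / 4) = Real.sqrt δ / 2 := by
        rw [Real.sqrt_div hδ.le]
        congr 1
        rw [show (4 : ℝ) = 2 ^ 2 by norm_num]
        exact Real.sqrt_sq (by norm_num)
      rw [← h6]
      exact Real.sqrt_lt_sqrt (f1 _ _).1 hfr'
    have h7 : Real.sqrt (fr (orb ρ (γ n)) Q) < Real.sqrt δ / 2 := by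
      have h6 : Real.sqrt (δ / 4) = Real.sqrt δ / 2 := by
        rw [Real.sqrt_div hδ.le]
        congr 1
        rw [show (4 : ℝ) = 2 ^ 2 by norm_num]
        exact Real.sqrt_sq (by norm_num)
      rw [← h6]
      exact Real.sqrt_lt_sqrt (f1 _ _).1 hfr2
    have h8 : Real.sqrt (fr (act (ρ (γ n)) P0) Q) < Real.sqrt δ := by linarith
    exact (Real.sqrt_lt_sqrt_iff (f1 _ _).1).1 h8
  -- the parameter
  obtain ⟨t, ht0, hthalf, ht⟩ : ∃ t : ℝ, 0 < t ∧ t ≤ 1 / 2 ∧ t * a ^ 2 < ε ^ 2 * d₀ * (t * d + (1 - t) * a) := by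
    refine ⟨min (1 / 2) (ε ^ 2 * d₀ / (4 * a)), by positivity, min_le_left _ _, ?_⟩
    set t : ℝ := min (1 / 2) (ε ^ 2 * d₀ / (4 * a)) with htd
    have h1 : t ≤ 1 / 2 := min_le_left _ _
    have h2 : t ≤ ε ^ 2 * d₀ / (4 * a) := min_le_right _ _
    have h0 : 0 < t := by positivity
    rw [le_div_iff₀ (by positivity)] at h2
    have hE : 0 < ε ^ 2 * d₀ := by positivity
    have h3 : t * a ^ 2 ≤ ε ^ 2 * d₀ * a / 4 := by nlinarith
    have h4 : ε ^ 2 * d₀ * a / 2 ≤ ε ^ 2 * d₀ * (t * d + (1 - t) * a) := by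
      have h5 : a / 2 ≤ t * d + (1 - t) * a := by nlinarith [mul_pos h0 hdp]
      have h6 := mul_le_mul_of_nonneg_left h5 hE.le
      linarith
    have h7 : 0 < ε ^ 2 * d₀ * a := by positivity
    linarith
  have ht1 : t < 1 := by linarith
  obtain ⟨c1, c2⟩ := ac_comb t P0 Q hQs.2.2
  have hR2 : 0 < 3 * (t • P0 + (1 - t) • Q).det.re - (ac (t • P0 + (1 - t) • Q) Q).re := by
    rw [c1, c2, ← ha, ← hd]
    nlinarith [mul_pos ht0 hap, mul_pos (mul_pos ht0 ht0) hdp]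
  have hR : 0 < ε ^ 2 * d₀ * (t • P0 + (1 - t) • Q).det.re - (ac (t • P0 + (1 - t) • Q) Q).re ^ 2 := by
    rw [c1, c2, ← ha, ← hd]
    have h1 := mul_lt_mul_of_pos_left ht ht0
    nlinarith
  have hcont : Continuous (fun P : Mat => ε ^ 2 * d₀ * P.det.re - (ac P Q).re ^ 2) :=
    (continuous_const.mul (Complex.continuous_re.comp continuous_id.matrix_det)).sub ((ac_cont Q).pow 2)
  have hlim2 : Tendsto (fun n => t • P0 + (1 - t) • act (ρ (γ n)) P0) atTop (𝓝 (t • P0 + (1 - t) • Q)) :=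
    tendsto_const_nhds.add (hlim.const_smul (1 - t))
  have hcont2 : Continuous (fun P : Mat => 3 * P.det.re - (ac P Q).re) :=
    (continuous_const.mul (Complex.continuous_re.comp continuous_id.matrix_det)).sub (ac_cont Q)
  have hev := (hcont.continuousAt.tendsto.comp hlim2).eventually_const_lt hR
  have hev2 := (hcont2.continuousAt.tendsto.comp hlim2).eventually_const_lt hR2
  obtain ⟨n, hn, hn2⟩ := (hev.and hev2).exists
  simp only [Function.comp_apply] at hn hn2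
  have hPC : t • P0 + (1 - t) • act (ρ (γ n)) P0 ∈ C :=
    hconv hP0 (hCinv (γ n) P0 hP0) ht0.le (by linarith) (by ring)
  generalize t • P0 + (1 - t) • act (ρ (γ n)) P0 = P at hn hn2 hPC
  obtain ⟨hPp, hPt⟩ := hCpos P hPC
  obtain ⟨g, hg⟩ := hCK P hPC
  refine ⟨g, ?_⟩
  have hgK : act (ρ g) P ∈ K := hg
  have hNP : 0 < Nn (ρ g) P := (m6 (ρ g) P hPp hPt).1
  have hNQ : 0 < Nn (ρ g) Q := (m5 (ρ g) Q hQs).1
  have hQ' := q9 (ρ g) Q hQs
  obtain ⟨hP'p, hP't⟩ := q10 (ρ g) P hPp hPt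
  have h1 := ac_ge hP'p.isHermitian hP't hQ'.1.isHermitian hQ'.2.1 hQ'.2.2
  have h2 := hK _ hgK
  rw [ac_act (ρ g) hPp.isHermitian hQh] at h1
  rw [det_act (ρ g) hPp.isHermitian] at h1 h2
  have e1 : ((((Nn (ρ g) P : ℝ) : ℂ)⁻¹) ^ 2 * P.det).re = (Nn (ρ g) P)⁻¹ ^ 2 * P.det.re := by
    rw [← Complex.ofReal_inv, ← Complex.ofReal_pow, Complex.re_ofReal_mul]
  have e2 : (((Nn (ρ g) P : ℝ) : ℂ)⁻¹ * ((Nn (ρ g) Q : ℝ) : ℂ)⁻¹ * ac P Q).re =
      (Nn (ρ g) P)⁻¹ * (Nn (ρ g) Q)⁻¹ * (ac P Q).re := by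
    rw [← Complex.ofReal_inv, ← Complex.ofReal_inv, ← Complex.ofReal_mul, Complex.re_ofReal_mul]
  rw [e1] at h1 h2
  rw [e2] at h1
  have hD : 0 < P.det.re := hdpos P hPp
  have hA : 0 < (ac P Q).re :=
    lt_of_lt_of_le hD (ac_ge hPp.isHermitian hPt hQh hQs.2.1 hQs.2.2)
  -- the norms of the inverse
  have i1 : d₀ * hs (ρ g : Mat) ≤ (Nn (ρ g) P)⁻¹ := by
    have hdP := hK _ hgK
    have h3 := Nn_ge (((ρ g)⁻¹ : SL) : Mat) (act (ρ g) P) hP'p.isHermitian hP't (hd₀p.le.trans hdP)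
      (Complex.pos_iff.1 (hP'p.diag_pos (i := 0))).1.le (Complex.pos_iff.1 (hP'p.diag_pos (i := 1))).1.le
    rw [m3] at h3
    have h4 := Nn_inv (ρ g) hPp.isHermitian hPt
    rw [← h4]
    exact (mul_le_mul_of_nonneg_right hdP (Finset.sum_nonneg fun _ _ => Finset.sum_nonneg fun _ _ =>
      sq_nonneg _)).trans h3
  have i2 : (Nn (ρ g) Q)⁻¹ ≤ hs (ρ g : Mat) := by
    have hd0 : 0 ≤ (act (ρ g) Q).det.re := by rw [hQ'.2.2]; exact le_rfl
    have h3 := Nn_le (((ρ g)⁻¹ : SL) : Mat) (act (ρ g) Q) hQ'.1.isHermitian hQ'.2.1 hd0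
      (Complex.nonneg_iff.1 (hQ'.1.diag_nonneg (i := 0))).1 (Complex.nonneg_iff.1 (hQ'.1.diag_nonneg (i := 1))).1
    rw [m3] at h3
    have h4 := Nn_inv (ρ g) hQh hQs.2.1
    rw [← h4]
    exact h3
  generalize hs (ρ g : Mat) = HS at *
  generalize Nn (ρ g) P = NP at *
  generalize Nn (ρ g) Q = NQ at *
  generalize P.det.re = D at *
  generalize (ac P Q).re = A at *
  -- NQ * D ≤ A * NP, d₀ NP² ≤ D, A² < ε² d₀ D
  have k1 : NQ * D ≤ A * NP := by
    have h3 := mul_le_mul_of_nonneg_left h1 (show 0 ≤ NP ^ 2 * NQ by positivity)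
    have e3 : NP ^ 2 * NQ * (NP⁻¹ ^ 2 * D) = NQ * D := by field_simp
    have e4 : NP ^ 2 * NQ * (NP⁻¹ * NQ⁻¹ * A) = A * NP := by field_simp
    rwa [e3, e4] at h3
  have k2 : d₀ * NP ^ 2 ≤ D := by
    have h3 := mul_le_mul_of_nonneg_left h2 (show 0 ≤ NP ^ 2 by positivity)
    have e3 : NP ^ 2 * (NP⁻¹ ^ 2 * D) = D := by field_simp
    rw [e3] at h3
    linarith
  have k3 : A ^ 2 < ε ^ 2 * d₀ * D := by linarith
  have k4 : (NQ * D) ^ 2 ≤ (A * NP) ^ 2 := pow_le_pow_left₀ (by positivity) k1 2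
  have k5 : d₀ * (A * NP) ^ 2 ≤ A ^ 2 * D := by
    have := mul_le_mul_of_nonneg_left k2 (sq_nonneg A)
    nlinarith
  have k6 : d₀ * (NQ * D) ^ 2 < d₀ * (ε * D) ^ 2 := by
    calc d₀ * (NQ * D) ^ 2 ≤ d₀ * (A * NP) ^ 2 := mul_le_mul_of_nonneg_left k4 hd₀p.le
      _ ≤ A ^ 2 * D := k5
      _ < ε ^ 2 * d₀ * D * D := mul_lt_mul_of_pos_right k3 hD
      _ = d₀ * (ε * D) ^ 2 := by ring
  have k7 : (NQ * D) ^ 2 < (ε * D) ^ 2 := lt_of_mul_lt_mul_left k6 hd₀p.le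
  have k8 : NQ * D < ε * D := lt_of_pow_lt_pow_left₀ 2 (by positivity) k7
  have k9 : NQ < ε := lt_of_mul_lt_mul_right k8 hD.le
  have k10 : NQ ≤ 3 * NP := by
    have h3 : NQ * D ≤ 3 * NP * D := by
      calc NQ * D ≤ A * NP := k1
        _ ≤ 3 * D * NP := mul_le_mul_of_nonneg_right (by linarith) hNP.le
        _ = 3 * NP * D := by ring
    exact le_of_mul_le_mul_right h3 hD
  have k11 : 1 ≤ HS * NQ := by
    have h3 := mul_le_mul_of_nonneg_right i2 hNQ.le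
    rwa [inv_mul_cancel₀ hNQ.ne'] at h3
  have k12 : d₀ * HS * NP ≤ 1 := by
    have h3 := mul_le_mul_of_nonneg_right i1 hNP.le
    rwa [inv_mul_cancel₀ hNP.ne'] at h3
  have hHS : 0 < HS := by
    by_contra hneg
    rw [not_lt] at hneg
    have := mul_nonpos_of_nonpos_of_nonneg hneg hNQ.le
    linarith
  constructor
  · by_contra hneg
    rw [not_lt] at hneg
    have : HS * NQ < 1 := by
      calc HS * NQ ≤ X * NQ := mul_le_mul_of_nonneg_right hneg hNQ.le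
        _ ≤ X * ε := mul_le_mul_of_nonneg_left k9.le hX.le
        _ < 1 := by linarith
    linarith
  · rw [le_div_iff₀ hd₀p]
    calc NQ * HS * d₀ ≤ 3 * NP * HS * d₀ := by
          apply mul_le_mul_of_nonneg_right _ hd₀p.le
          exact mul_le_mul_of_nonneg_right k10 hHS.le
      _ = 3 * (d₀ * HS * NP) := by ring
      _ ≤ 3 := by linarith

/-- covering of the limit set by small balls around the orbit -/
theorem cover (hLFR : QD.StLFR) (hLQC : QD.StLQC) (hLMX : QD.StLMX) (hLLS : QD.StLLS)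
    (Γ : Type) [Group Γ] (ρ : Γ →* SL) (hcc : CC ρ) : ∃ K2 : ℝ, 0 < K2 ∧ ∀ Q ∈ limitSet ρ, ∀ X : ℝ, 0 < X →
      ∃ γ : Γ, X < hs (ρ γ : Mat) ∧ Real.sqrt (fr (orb ρ γ) Q) ≤ K2 / hs (ρ γ : Mat) := by
  obtain ⟨K1, hK1, h⟩ := strong hLFR hLQC hLMX hLLS Γ ρ hcc
  obtain ⟨-, hsub, -, -, -⟩ := hLLS Γ ρ hcc.discrete
  obtain ⟨-, -, m3, -, m5, -⟩ := hLMX
  refine ⟨Real.sqrt (2 * K1), Real.sqrt_pos.2 (by linarith), fun Q hQ X hX => ?_⟩
  obtain ⟨γ, h1, h2⟩ := h Q hQ X hX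
  have hQs := hsub hQ
  obtain ⟨-, -, h3⟩ := m5 (ρ γ) Q hQs
  have e : (ρ γ⁻¹ : SL) = (ρ γ)⁻¹ := map_inv ρ γ
  refine ⟨γ⁻¹, ?_, ?_⟩
  · rw [e, m3]
    exact h1
  · rw [e, m3]
    have hH : 0 < hs (ρ γ : Mat) := hX.trans h1
    have e2 : orb ρ γ⁻¹ = density ((((ρ γ)⁻¹ : SL) : Mat) * (((ρ γ)⁻¹ : SL) : Mat)ᴴ) := by
      unfold QD.orb
      rw [e]
    rw [e2]
    set f := fr (density ((((ρ γ)⁻¹ : SL) : Mat) * (((ρ γ)⁻¹ : SL) : Mat)ᴴ)) Q with hf
    rw [Real.sqrt_le_left (by positivity), div_pow, Real.sq_sqrt (by linarith), le_div_iff₀ (by positivity)]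
    have h4 : Nn (ρ γ) Q * hs (ρ γ : Mat) ≤ K1 := h2
    have h5 : hs (ρ γ : Mat) * f / 2 ≤ Nn (ρ γ) Q := h3
    have h6 := mul_le_mul_of_nonneg_right h5 hH.le
    nlinarith [h6, h4]

/-- module ENL -/
theorem dENL : Pool.Agent.Helper69.QT.St_ENL := by
  classical
  intro hSUM Γ _ ρ hqf
  by_contra hlt
  rw [not_le] at hlt
  have hLFR := Pool.Agent.Helper64.QD.hLFR
  have hLQC := Pool.Agent.Helper26.QD.hLQC
  have hLMX := Pool.Agent.Helper99.QD.hLMX
  have hLLS := Pool.Agent.Helper42.QD.hLLS hLFR hLQC hLMX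
  have hcc : CC ρ := ⟨hqf.discrete, hqf.cocompact⟩
  have hsum := hSUM Γ ρ hcc hqf.jordan 1 one_pos hlt
  obtain ⟨K2, hK2, hcov⟩ := cover hLFR hLQC hLMX hLLS Γ ρ hcc
  obtain ⟨f1, f2, -, -⟩ := hLFR
  obtain ⟨m1, -⟩ := hLMX
  obtain ⟨h⟩ := hqf.jordan
  have hpos : ∀ γ : Γ, 0 < hs (ρ γ : Mat) := fun γ => lt_of_lt_of_le (by norm_num) (m1 (ρ γ))
  set φ : ℝ → Mat := fun t => ((h.symm (Circle.exp t) : limitSet ρ) : Mat) with hφ
  have hφc : Continuous φ := continuous_subtype_val.comp (h.symm.continuous.comp Circle.exp.continuous)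
  have hφm : ∀ t, φ t ∈ limitSet ρ := fun t => (h.symm (Circle.exp t)).2
  have hne : φ 0 ≠ φ Real.pi := by
    intro he
    have h1 := h.symm.injective (Subtype.ext he)
    have h2 := congrArg (fun z : Circle => (z : ℂ)) h1
    simp only [Circle.coe_exp] at h2
    rw [Complex.ofReal_zero, zero_mul, Complex.exp_zero, Complex.exp_pi_mul_I] at h2
    have h3 := congrArg Complex.re h2
    norm_num at h3
  set g : ℝ → ℝ := fun t => Real.sqrt (fr (φ 0) (φ t)) with hg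
  have hgc : Continuous g := by
    apply Real.continuous_sqrt.comp
    unfold QD.fr hs
    refine continuous_finsetSum _ fun i _ => continuous_finsetSum _ fun j _ => ?_
    refine (Continuous.norm ?_).pow 2
    simp only [Matrix.sub_apply]
    exact continuous_const.sub (hφc.matrix_elem i j)
  have hg0 : g 0 = 0 := by
    have : fr (φ 0) (φ 0) = 0 := by
      unfold QD.fr hs
      simp
    simp only [hg, this, Real.sqrt_zero]
  set d : ℝ := g Real.pi with hd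
  have hd0 : 0 < d := by
    apply Real.sqrt_pos.2
    refine lt_of_le_of_ne (f1 _ _).1 fun h0 => hne ((f1 _ _).2.2 h0.symm)
  have hivt : Set.Icc 0 d ⊆ g '' Set.Icc 0 Real.pi := by
    have := intermediate_value_Icc Real.pi_pos.le hgc.continuousOn
    rwa [hg0] at this
  have hcount : Countable Γ := by
    have h1 : (Set.univ : Set Γ) ⊆ ⋃ n : ℕ, {γ : Γ | hs (ρ γ : Mat) ≤ n} := by
      intro γ _
      obtain ⟨n, hn⟩ := exists_nat_ge (hs (ρ γ : Mat))
      exact Set.mem_iUnion.2 ⟨n, hn⟩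
    have h2 := (Set.countable_iUnion fun n : ℕ => (hqf.discrete n).countable).mono h1
    exact Set.countable_univ_iff.1 h2
  set F : Γ → ℝ := fun γ => (hs (ρ γ : Mat))⁻¹ with hF
  have hFs : Summable F := by
    refine hsum.congr fun γ => ?_
    change hs (ρ γ : Mat) ^ (-(1 : ℝ)) = (hs (ρ γ : Mat))⁻¹
    rw [Real.rpow_neg (hpos γ).le, Real.rpow_one]
  have htail := tendsto_tsum_compl_atTop_zero F
  have hev := htail.eventually_lt_const (show 0 < d / (2 * K2) by positivity)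
  obtain ⟨S, hS⟩ := hev.exists
  set X : ℝ := (∑ γ ∈ S, hs (ρ γ : Mat)) + 1 with hX
  have hX0 : 0 < X := by
    have : 0 ≤ ∑ γ ∈ S, hs (ρ γ : Mat) := Finset.sum_nonneg fun γ _ => (hpos γ).le
    linarith
  have hSX : ∀ γ ∈ S, hs (ρ γ : Mat) ≤ X := by
    intro γ hγ
    have : hs (ρ γ : Mat) ≤ ∑ γ ∈ S, hs (ρ γ : Mat) :=
      Finset.single_le_sum (f := fun γ => hs (ρ γ : Mat)) (fun γ _ => (hpos γ).le) hγ
    linarith
  set c : {x // x ∉ S} → ℝ := fun γ => Real.sqrt (fr (φ 0) (orb ρ γ)) with hc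
  set r : {x // x ∉ S} → ℝ := fun γ => K2 * F γ with hr
  have hr0 : ∀ γ, 0 ≤ r γ := fun γ => mul_nonneg hK2.le (inv_nonneg.2 (hpos γ).le)
  have hcover : Set.Icc 0 d ⊆ ⋃ γ : {x // x ∉ S}, Set.Icc (c γ - r γ) (c γ + r γ) := by
    intro y hy
    obtain ⟨t, -, rfl⟩ := hivt hy
    obtain ⟨γ, hγ1, hγ2⟩ := hcov (φ t) (hφm t) X hX0
    have hγS : γ ∉ S := fun hmem => absurd (hSX γ hmem) (not_le.2 hγ1)
    rw [Set.mem_iUnion]
    refine ⟨⟨γ, hγS⟩, ?_⟩
    have h1 : Real.sqrt (fr (orb ρ γ) (φ t)) ≤ r ⟨γ, hγS⟩ := by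
      change _ ≤ K2 * (hs (ρ γ : Mat))⁻¹
      rw [← div_eq_mul_inv]
      exact hγ2
    have h2 := f2 (φ 0) (orb ρ γ) (φ t)
    have h3 := f2 (φ 0) (φ t) (orb ρ γ)
    rw [(f1 (φ t) (orb ρ γ)).2.1] at h3
    simp only [hg, hc]
    rw [Set.mem_Icc]
    constructor
    · linarith
    · linarith
  have hvol : ENNReal.ofReal d ≤ ∑' γ : {x // x ∉ S}, ENNReal.ofReal (2 * r γ) := by
    calc ENNReal.ofReal d = volume (Set.Icc 0 d) := by rw [Real.volume_Icc, sub_zero]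
      _ ≤ volume (⋃ γ : {x // x ∉ S}, Set.Icc (c γ - r γ) (c γ + r γ)) := measure_mono hcover
      _ ≤ ∑' γ : {x // x ∉ S}, volume (Set.Icc (c γ - r γ) (c γ + r γ)) := measure_iUnion_le _
      _ = ∑' γ : {x // x ∉ S}, ENNReal.ofReal (2 * r γ) := by
          refine tsum_congr fun γ => ?_
          rw [Real.volume_Icc]
          congr 1
          ring
  have hsub : Summable (fun γ : {x // x ∉ S} => F γ) := hFs.subtype _
  have hsum2 : Summable (fun γ : {x // x ∉ S} => 2 * r γ) := by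
    have := (hsub.mul_left (2 * K2))
    refine this.congr fun γ => ?_
    rw [hr]
    ring
  rw [← ENNReal.ofReal_tsum_of_nonneg (fun γ => by have := hr0 γ; positivity) hsum2] at hvol
  have heq : ∑' γ : {x // x ∉ S}, 2 * r γ = 2 * K2 * ∑' γ : {x // x ∉ S}, F γ := by
    rw [← tsum_mul_left]
    refine tsum_congr fun γ => ?_
    rw [hr]
    ring
  rw [heq] at hvol
  have hlt2 : 2 * K2 * ∑' γ : {x // x ∉ S}, F γ < d := by
    have h1 := mul_lt_mul_of_pos_left hS (show 0 < 2 * K2 by positivity)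
    rwa [mul_div_cancel₀ d (by positivity : (2 * K2 : ℝ) ≠ 0)] at h1
  have h5 := (ENNReal.ofReal_lt_ofReal_iff hd0).2 hlt2
  exact absurd hvol (not_le.2 h5)

end Pool.Agent.Helper83.QT
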